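import Pool.Agent.H67.AG.T1

/-!
# Row GI of the board `gap_modules`: the distance is invariant
-/

set_option autoImplicit false

open MeasureTheory ProbabilityTheory Filter Topology Finset
open scoped Nat ENNReal

namespace Pool.Agent.H21.AG

open Pool.Agent.H67.AG

variable {X : Type} [mX : MeasurableSpace X]

theorem gi_TT_iterate (T : X ≃ᵐ X) (t : ℕ) (x y : X) :
    (TT T)^[t] (x, y) = (T^[t] x, T^[t] y) := by
  induction t generalizing x y with
  | zero => rfl
  | succ t ih =>
    rw [Function.iterate_succ_apply, Function.iterate_succ_apply, Function.iterate_succ_apply]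
    exact ih (T x) (T y)

theorem gi_meas_iterate (T : X ≃ᵐ X) (t : ℕ) : Measurable (fun x => T^[t] x) :=
  T.measurable.iterate t

variable [StandardBorelSpace X]

/-- One term of the distance. -/
noncomputable def giTerm (μ : Measure X) [IsFiniteMeasure μ] (Z : SA X) (T : X ≃ᵐ X)
    (H : X × X → ℝ) (t : ℕ) (q : X × X) : ℝ :=
  ∫ y, (H (T^[t] q.1, T^[t] y) - H (T^[t] q.2, T^[t] y)) ^ 2 ∂(kap μ Z q.1)

theorem giTerm_measurable (μ : Measure X) [IsFiniteMeasure μ] (Z : SA X) (T : X ≃ᵐ X)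
    (H : X × X → ℝ) (hH : Measurable H) (t : ℕ) : Measurable (giTerm μ Z T H t) := by
  have h1 : StronglyMeasurable (fun z : (X × X) × X =>
      (H (T^[t] z.1.1, T^[t] z.2) - H (T^[t] z.1.2, T^[t] z.2)) ^ 2) := by
    apply Measurable.stronglyMeasurable
    have ht := gi_meas_iterate T t
    exact ((hH.comp ((ht.comp (measurable_fst.comp measurable_fst)).prodMk
      (ht.comp measurable_snd))).sub (hH.comp ((ht.comp (measurable_snd.comp measurable_fst)).prodMk
      (ht.comp measurable_snd)))).pow_const 2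
  have h2 := StronglyMeasurable.integral_kernel_prod_right'
    (κ := Kernel.comap (kap μ Z) (Prod.fst : X × X → X) measurable_fst) h1
  exact h2.measurable

theorem giTerm_succ (μ : Measure X) [IsFiniteMeasure μ] (Z : SA X) (T : X ≃ᵐ X)
    (H : X × X → ℝ) (t : ℕ) (q : X × X) (hq : kap μ Z (T q.1) = (kap μ Z q.1).map T) :
    giTerm μ Z T H t (TT T q) = giTerm μ Z T H (t + 1) q := by
  unfold giTerm
  have h1 : ((TT T) q).1 = T q.1 := rfl
  have h2 : ((TT T) q).2 = T q.2 := rfl
  rw [h1, h2, hq, integral_map_equiv]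
  rfl

theorem giTerm_period (μ : Measure X) [IsFiniteMeasure μ] (Z : SA X) (T : X ≃ᵐ X)
    (H : X × X → ℝ) (W : ℕ) (hH : ∀ q, H ((TT T)^[W] q) = H q) (q : X × X) :
    giTerm μ Z T H W q = giTerm μ Z T H 0 q := by
  unfold giTerm
  refine integral_congr_ae (Eventually.of_forall fun y => ?_)
  show (H (T^[W] q.1, T^[W] y) - H (T^[W] q.2, T^[W] y)) ^ 2 =
    (H (T^[0] q.1, T^[0] y) - H (T^[0] q.2, T^[0] y)) ^ 2
  rw [← gi_TT_iterate, ← gi_TT_iterate, hH, hH]
  rfl

theorem pf_GI (h : T_J3) : T_GI := by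
  intro X _ _ μ _ T Z n W H hT hZ hH
  have hGb : Gb μ Z T n W H = fun q => ∑ l : Fin n, ∑ t ∈ range W, giTerm μ Z T (H l) t q := rfl
  constructor
  · rw [hGb]
    exact Finset.measurable_sum _ fun l _ => Finset.measurable_sum _ fun t _ =>
      giTerm_measurable μ Z T (H l) (hH l).1 t
  · obtain ⟨-, h2⟩ := h X μ T Z hT hZ
    have h3 : ∀ᵐ q ∂(JJ μ Z), kap μ Z (T q.1) = (kap μ Z q.1).map T := by
      have h4 : (JJ μ Z).map Prod.fst = μ := by
        show (μ ⊗ₘ kap μ Z).fst = μ
        exact Measure.fst_compProd μ (kap μ Z)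
      have h5 : MeasurePreserving Prod.fst (JJ μ Z) μ := ⟨measurable_fst, h4⟩
      exact h5.quasiMeasurePreserving.ae h2
    filter_upwards [h3] with q hq
    rw [hGb]
    refine Finset.sum_congr rfl fun l _ => ?_
    have h5 : ∑ t ∈ range W, giTerm μ Z T (H l) t (TT T q) =
        ∑ t ∈ range W, giTerm μ Z T (H l) (t + 1) q :=
      Finset.sum_congr rfl fun t _ => giTerm_succ μ Z T (H l) t q hq
    have h6 := Finset.sum_range_succ (fun t => giTerm μ Z T (H l) t q) W
    have h7 := Finset.sum_range_succ' (fun t => giTerm μ Z T (H l) t q) W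
    have h8 := giTerm_period μ Z T (H l) W (hH l).2.2 q
    show ∑ t ∈ range W, giTerm μ Z T (H l) t (TT T q) = ∑ t ∈ range W, giTerm μ Z T (H l) t q
    rw [h5]
    linarith

end Pool.Agent.H21.AG
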