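import Pool.Agent.H40.AG.Base

/-!
ABSOLUTE GAP (`MP_c59857_nt`), row PNL: laws of the references.
-/

set_option autoImplicit false
set_option linter.unusedSectionVars false

open MeasureTheory ProbabilityTheory Filter Topology Finset
open scoped Nat ENNReal

namespace Pool.Agent.H21.AG

open Pool.Agent.H67.AG Pool.Agent.H40.AG

variable {X : Type} [mX : MeasurableSpace X] [StandardBorelSpace X]

theorem lint_kap (μ : Measure X) [IsProbabilityMeasure μ] (Z : SA X) {B : Set X}
    (hB : MeasurableSet B) : ∫⁻ z, kap μ Z z B ∂(μ) = μ B := by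
  have h1 : (∫⁻ z, kap μ Z z B ∂(μ)).toReal = μ.real B := by
    rw [← integral_toReal ((kap μ Z).measurable_coe hB).aemeasurable
      (ae_of_all _ fun z => measure_lt_top _ _)]
    have h2 := integral_congr_ae (condExp_kap_set μ Z hB)
    rw [integral_condExp Z.2] at h2
    exact h2.trans (integral_indicator_one hB)
  have h3 : ∫⁻ z, kap μ Z z B ∂(μ) ≠ ∞ := by
    refine ne_top_of_le_ne_top (b := 1) ENNReal.one_ne_top ?_
    calc ∫⁻ z, kap μ Z z B ∂(μ) ≤ ∫⁻ _z, 1 ∂(μ) := lintegral_mono fun z => prob_le_one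
      _ = 1 := by simp
  rw [← ENNReal.toReal_eq_toReal_iff' h3 (measure_ne_top _ _)]
  exact h1

theorem lint_kap2 (hJ1 : T_J1) (μ : Measure X) [IsProbabilityMeasure μ] (Z : SA X) {A B : Set X}
    (hA : MeasurableSet A) (hB : MeasurableSet B) :
    ∫⁻ z, kap μ Z z A * kap μ Z z B ∂(μ) = JJ μ Z (A ×ˢ B) := by
  have h1 : (∫⁻ z, kap μ Z z A * kap μ Z z B ∂(μ)).toReal = (JJ μ Z).real (A ×ˢ B) := by
    have hm : AEMeasurable (fun z => kap μ Z z A * kap μ Z z B) μ :=
      (((kap μ Z).measurable_coe hA).mul ((kap μ Z).measurable_coe hB)).aemeasurable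
    rw [← integral_toReal hm
      (ae_of_all _ fun z => ENNReal.mul_lt_top (measure_lt_top _ _) (measure_lt_top _ _))]
    have h2 := hJ1 X μ Z (A.indicator fun _ => (1 : ℝ)) (B.indicator fun _ => (1 : ℝ))
      (measurable_const.indicator hA) (measurable_const.indicator hB)
      ⟨1, fun x => by by_cases hx : x ∈ A <;> simp [hx]⟩
      ⟨1, fun x => by by_cases hx : x ∈ B <;> simp [hx]⟩
    have h3 : (fun q : X × X => A.indicator (fun _ => (1 : ℝ)) q.1 *
        B.indicator (fun _ => (1 : ℝ)) q.2) = (A ×ˢ B).indicator 1 := by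
      funext q
      by_cases h4 : q.1 ∈ A <;> by_cases h5 : q.2 ∈ B <;>
        simp [Set.indicator, Set.mem_prod, h4, h5]
    rw [h3, integral_indicator_one (hA.prod hB)] at h2
    rw [h2]
    refine integral_congr_ae ?_
    filter_upwards [condExp_kap_set μ Z hA, condExp_kap_set μ Z hB] with z h4 h5
    rw [ENNReal.toReal_mul, ← h4, ← h5]
    rfl
  have h3 : ∫⁻ z, kap μ Z z A * kap μ Z z B ∂(μ) ≠ ∞ := by
    refine ne_top_of_le_ne_top (b := 1) ENNReal.one_ne_top ?_
    calc ∫⁻ z, kap μ Z z A * kap μ Z z B ∂(μ) ≤ ∫⁻ _z, 1 ∂(μ) :=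
          lintegral_mono fun z => mul_le_one' prob_le_one prob_le_one
      _ = 1 := by simp
  rw [← ENNReal.toReal_eq_toReal_iff' h3 (measure_ne_top _ _)]
  exact h1

theorem piK_eval (κ : Kernel X X) [IsMarkovKernel κ] (n : ℕ) (z : X) (b : Fin n) {B : Set X}
    (hB : MeasurableSet B) : piK κ n z {v | v b ∈ B} = κ z B := by
  change (Measure.pi fun _ : Fin n => κ z) (Function.eval b ⁻¹' B) = κ z B
  exact (measurePreserving_eval (fun _ : Fin n => κ z) b).measure_preimage hB.nullMeasurableSet

theorem piK_eval2 (κ : Kernel X X) [IsMarkovKernel κ] (n : ℕ) (z : X) (a b : Fin n) (hab : a ≠ b)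
    {A B : Set X} : piK κ n z {v | v a ∈ A ∧ v b ∈ B} = κ z A * κ z B := by
  classical
  change (Measure.pi fun _ : Fin n => κ z) {v | v a ∈ A ∧ v b ∈ B} = κ z A * κ z B
  have h1 : {v : Fin n → X | v a ∈ A ∧ v b ∈ B} =
      Set.pi Set.univ (fun i => if i = a then A else if i = b then B else Set.univ) := by
    ext v
    simp only [Set.mem_ofPred_eq, Set.mem_pi, Set.mem_univ, true_implies]
    constructor
    · rintro ⟨h2, h3⟩ i
      split_ifs with h4 h5
      · rw [h4]; exact h2
      · rw [h5]; exact h3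
      · exact Set.mem_univ _
    · intro h2
      refine ⟨by simpa using h2 a, ?_⟩
      have h3 := h2 b
      rw [if_neg hab.symm, if_pos rfl] at h3
      exact h3
  rw [h1, Measure.pi_pi]
  have h2 : ∀ i : Fin n, κ z (if i = a then A else if i = b then B else Set.univ) =
      (if i = a then κ z A else 1) * (if i = b then κ z B else 1) := by
    intro i
    by_cases h3 : i = a
    · subst h3
      rw [if_pos rfl, if_pos rfl, if_neg hab, mul_one]
    · rw [if_neg h3, if_neg h3, one_mul]
      split_ifs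
      · rfl
      · exact measure_univ
  rw [Finset.prod_congr rfl fun i _ => h2 i, Finset.prod_mul_distrib, Finset.prod_ite_eq',
    Finset.prod_ite_eq']
  simp

theorem pf_PNL (hJ4 : T_J4) (hJ1 : T_J1) : T_PNL := by
  intro X _ _ μ _ Z n
  refine ⟨inferInstance, ?_, ?_, ?_, ?_⟩
  · exact ⟨measurable_fst, Measure.fst_compProd μ (piK (kap μ Z) n)⟩
  · intro b
    have hm : Measurable fun q : XN X n => q.2 b := (measurable_pi_apply b).comp measurable_snd
    refine ⟨hm, ?_⟩
    ext B hB
    rw [Measure.map_apply hm hB]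
    have h1 : (fun q : XN X n => q.2 b) ⁻¹' B = Set.univ ×ˢ {v : Fin n → X | v b ∈ B} := by
      ext q
      simp
    have h2 : MeasurableSet {v : Fin n → X | v b ∈ B} := measurable_pi_apply b hB
    rw [h1, PN, Measure.compProd_apply_prod MeasurableSet.univ h2]
    simp only [piK_eval _ _ _ _ hB, Measure.restrict_univ]
    exact lint_kap μ Z hB
  · intro b
    have hm : Measurable fun q : XN X n => (q.1, q.2 b) :=
      measurable_fst.prodMk ((measurable_pi_apply b).comp measurable_snd)
    refine ⟨hm, ?_⟩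
    refine Measure.ext_prod fun {A B} hA hB => ?_
    rw [Measure.map_apply hm (hA.prod hB)]
    have h1 : (fun q : XN X n => (q.1, q.2 b)) ⁻¹' (A ×ˢ B) =
        A ×ˢ {v : Fin n → X | v b ∈ B} := by
      ext q
      simp
    have h2 : MeasurableSet {v : Fin n → X | v b ∈ B} := measurable_pi_apply b hB
    rw [h1, PN, Measure.compProd_apply_prod hA h2, JJ, Measure.compProd_apply_prod hA hB]
    simp only [piK_eval _ _ _ _ hB]
  · intro a b hab
    have hm : Measurable fun q : XN X n => (q.2 a, q.2 b) :=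
      ((measurable_pi_apply a).comp measurable_snd).prodMk
        ((measurable_pi_apply b).comp measurable_snd)
    refine ⟨hm, ?_⟩
    refine Measure.ext_prod fun {A B} hA hB => ?_
    rw [Measure.map_apply hm (hA.prod hB)]
    have h1 : (fun q : XN X n => (q.2 a, q.2 b)) ⁻¹' (A ×ˢ B) =
        Set.univ ×ˢ {v : Fin n → X | v a ∈ A ∧ v b ∈ B} := by
      ext q
      simp
    have h2 : MeasurableSet {v : Fin n → X | v a ∈ A ∧ v b ∈ B} :=
      (measurable_pi_apply a hA).inter (measurable_pi_apply b hB)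
    rw [h1, PN, Measure.compProd_apply_prod MeasurableSet.univ h2]
    simp only [piK_eval2 _ _ _ _ _ hab, Measure.restrict_univ]
    exact lint_kap2 hJ1 μ Z hA hB

end Pool.Agent.H21.AG
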